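import Pool.Agent.Lib.MP_94cd9d_al.K.Quot

/-!
# Simplicity of the central quotients of the Virasoro enveloping algebra

Over a field `𝕜` of characteristic zero let `Vir 𝕜` be the Virasoro algebra (basis `e n`, `n ∈ ℤ`,
and `z`) and let `VirQuot lam` be the quotient `U(Vir) / (z - lam)` of its universal enveloping
algebra by the two-sided ideal generated by `z - lam`. This ring is simple if and only if
`lam ≠ 0`; and for `lam ≠ 0` every nonzero subspace of it that is stable under the adjoint action
of the elements `e n` contains `1`.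
-/

set_option autoImplicit false

namespace Pool.Agent.Results.MP_94cd9d_al.CentralQuotientsSimple

open Pool.Agent.Lib.VirSimpleK

theorem result (𝕜 : Type*) [Field 𝕜] [CharZero 𝕜] (lam : 𝕜) :
    (IsSimpleRing (VirQuot lam) ↔ lam ≠ 0) ∧
    (lam ≠ 0 → ∀ N : Submodule 𝕜 (VirQuot lam), N ≠ ⊥ → AdStable lam N →
      (1 : VirQuot lam) ∈ N) := by
  refine ⟨⟨?_, quot_simple⟩, quot_stable⟩
  rintro h rfl
  exact quot_zero_not_simple h

end Pool.Agent.Results.MP_94cd9d_al.CentralQuotientsSimple
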